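import Pool.Agent.R783.Nil.Uni

/-!
# Dense orbits along `R_e`-sequences in minimal nilsystems

Let `G` be a nilpotent Lie group, `Γ` a discrete cocompact subgroup and `a ∈ G` such that the
nilsystem `x ↦ a • x` on `G ⧸ Γ` is minimal.  For every `R_e`-sequence `A` of positive integers
there is a point of `G ⧸ Γ` whose orbit along `A` is dense.
-/

namespace Pool.Agent.Results.MP_33f427_an.NilDense

open scoped Manifold ContDiff

universe u v

/-- A map `T : X → X` is minimal if `{T^n x : n ≥ 1}` is dense for every `x`. -/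
def IsMinimalMap {X : Type u} [TopologicalSpace X] (T : X → X) : Prop :=
  ∀ x, Dense {y | ∃ n : ℕ, 1 ≤ n ∧ y = T^[n] x}

/-- `A ⊆ {1, 2, ...}` is an `R_e`-sequence: every minimal equicontinuous system `(X, T)`
(`X` a nonempty compact metric space, `T` a continuous surjection) contains a point `x`
such that `{T^n x : n ∈ A}` is dense. -/
def IsReSequence (A : Set ℕ) : Prop :=
  (∀ n ∈ A, 1 ≤ n) ∧
    ∀ (X : Type) [MetricSpace X] [CompactSpace X] [Nonempty X] (T : X → X),
      Continuous T → Function.Surjective T → IsMinimalMap T →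
      Equicontinuous (fun n : ℕ => T^[n]) →
      ∃ x, Dense {y | ∃ n ∈ A, y = T^[n] x}

/-- Every minimal nilsystem has a point whose orbit along a given `R_e`-sequence is dense. -/
theorem result {E : Type v} [NormedAddCommGroup E] [NormedSpace ℝ E] [FiniteDimensional ℝ E]
    {G : Type u} [TopologicalSpace G] [ChartedSpace E G] [Group G] [LieGroup 𝓘(ℝ, E) ∞ G]
    [T2Space G] [Group.IsNilpotent G]
    (Γ : Subgroup G) [DiscreteTopology Γ] [CompactSpace (G ⧸ Γ)] (a : G)
    (hmin : IsMinimalMap (fun x : G ⧸ Γ => a • x))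
    {A : Set ℕ} (hA : IsReSequence A) :
    ∃ y : G ⧸ Γ, Dense {z | ∃ n ∈ A, z = (fun x : G ⧸ Γ => a • x)^[n] y} :=
  Pool.Agent.R783.Nil.nil_re (E := E) Γ a hmin (Pool.Agent.R783.Nil.isRe_lift hA)

end Pool.Agent.Results.MP_33f427_an.NilDense
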